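import Pool.Agent.Helper47.SR.Goals

/-!
# Packet SR-FLOW (5284, helper47): the flow inequality
-/

namespace Pool.Agent.Helper47.SR

open Finset

theorem goal_FLOW (hRL : Goal_RL) (hTP : Goal_TP) : Goal_FLOW := by
  intro n G hG m hm S hS
  classical
  -- cardinalities of the members of `S`
  have hcard : ∀ y ∈ S, #y = m := fun y hy => (mem_powersetCard.1 (hS hy)).2
  have hup : ∀ x, x ∈ up m S ↔ #x = m + 1 ∧ ∃ a ∈ x, x.erase a ∈ S := by
    intro x
    simp [up, mem_filter, mem_powersetCard]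
  let T : Finset (Fin n) → ℤ := fun x => ∑ i ∈ x, (wt G (x.erase i) : ℤ)
  let F : Finset (Fin n) → Finset (Fin n) → ℤ := fun y x => (m : ℤ) + ((m : ℤ) + 1) * (wt G y : ℤ) - T x
  -- nonnegativity
  have hFnn : ∀ x : Finset (Fin n), #x = m + 1 → ∀ a ∈ x, 0 ≤ F (x.erase a) x := by
    intro x hx a ha
    have h := hTP n G hG x (by omega) a ha
    rw [hx] at h
    have h' : (∑ i ∈ x, (wt G (x.erase i) : ℤ)) ≤ (m : ℤ) + ((m : ℤ) + 1) * (wt G (x.erase a) : ℤ) := by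
      have h2 : ((∑ i ∈ x, wt G (x.erase i) : ℕ) : ℤ) ≤ ((m + 1 - 1 + (m + 1) * wt G (x.erase a) : ℕ) : ℤ) := by
        exact_mod_cast h
      simpa using h2
    show 0 ≤ (m : ℤ) + ((m : ℤ) + 1) * (wt G (x.erase a) : ℤ) - ∑ i ∈ x, (wt G (x.erase i) : ℤ)
    linarith
  -- sum over the facets
  have hFsum : ∀ x : Finset (Fin n), #x = m + 1 → ∑ a ∈ x, F (x.erase a) x = ((m : ℤ) + 1) * m := by
    intro x hx
    show ∑ a ∈ x, ((m : ℤ) + ((m : ℤ) + 1) * (wt G (x.erase a) : ℤ) - T x) = ((m : ℤ) + 1) * m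
    rw [sum_sub_distrib, sum_add_distrib, ← mul_sum, sum_const, sum_const, hx]
    simp only [nsmul_eq_mul]
    push_cast
    show ((m : ℤ) + 1) * m + ((m : ℤ) + 1) * T x - ((m : ℤ) + 1) * T x = ((m : ℤ) + 1) * m
    ring
  have h1 : ∑ x ∈ up m S, ∑ a ∈ x.filter (fun a => x.erase a ∈ S), F (x.erase a) x
      ≤ (#(up m S) : ℤ) * (((m : ℤ) + 1) * m) := by
    rw [← nsmul_eq_mul, ← sum_const]
    refine sum_le_sum fun x hx => ?_
    have hxc := ((hup x).1 hx).1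
    rw [← hFsum x hxc]
    refine sum_le_sum_of_subset_of_nonneg (filter_subset _ _) ?_
    intro a ha _
    exact hFnn x hxc a ha
  have h2 : ∑ x ∈ up m S, ∑ a ∈ x.filter (fun a => x.erase a ∈ S), F (x.erase a) x
      = ∑ y ∈ S, ∑ j ∈ yᶜ, F y (insert j y) := by
    rw [sum_sigma', sum_sigma']
    refine sum_bij' (fun p _ => ⟨p.1.erase p.2, p.2⟩) (fun p _ => ⟨insert p.2 p.1, p.2⟩) ?_ ?_ ?_ ?_ ?_
    · rintro ⟨x, a⟩ hp
      simp only [mem_sigma, mem_filter, mem_compl] at hp ⊢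
      exact ⟨hp.2.2, notMem_erase _ _⟩
    · rintro ⟨y, j⟩ hp
      simp only [mem_sigma, mem_filter, mem_compl] at hp ⊢
      have hy := hcard y hp.1
      refine ⟨(hup _).2 ⟨?_, j, mem_insert_self _ _, ?_⟩, mem_insert_self _ _, ?_⟩
      · rw [card_insert_of_notMem hp.2, hy]
      · rw [erase_insert hp.2]; exact hp.1
      · rw [erase_insert hp.2]; exact hp.1
    · rintro ⟨x, a⟩ hp
      simp only [mem_sigma, mem_filter] at hp
      simp only [insert_erase hp.2.1]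
    · rintro ⟨y, j⟩ hp
      simp only [mem_sigma, mem_compl] at hp
      simp only [erase_insert hp.2]
    · rintro ⟨x, a⟩ hp
      simp only [mem_sigma, mem_filter] at hp
      simp only [insert_erase hp.2.1]
  -- evaluation of the inner sums
  have h3 : ∀ y ∈ S, ((n : ℤ) - m) * m * (1 + (wt G y : ℤ)) - 4 * m ≤ ∑ j ∈ yᶜ, F y (insert j y) := by
    intro y hy
    have hyc := hcard y hy
    have hle : #y ≤ n := by
      have := card_le_univ y
      simpa using this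
    have hcc : ((#yᶜ : ℕ) : ℤ) = (n : ℤ) - m := by
      rw [card_compl, Fintype.card_fin, Nat.cast_sub hle, hyc]
    have hRLy := hRL n G hG y (by omega)
    have hT : ∀ j ∈ yᶜ, T (insert j y) = (wt G y : ℤ) + ∑ i ∈ y, (wt G (insert j (y.erase i)) : ℤ) := by
      intro j hj
      have hj' : j ∉ y := by simpa using hj
      show ∑ i ∈ insert j y, (wt G ((insert j y).erase i) : ℤ) = _
      rw [sum_insert hj', erase_insert hj']
      congr 1
      refine sum_congr rfl fun i hi => ?_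
      rw [erase_insert_of_ne (by rintro rfl; exact hj' hi)]
    have hR : ∑ j ∈ yᶜ, ∑ i ∈ y, (wt G (insert j (y.erase i)) : ℤ) ≤ 4 * m := by
      rw [sum_comm]
      have h' : ((∑ i ∈ y, ∑ j ∈ yᶜ, wt G (insert j (y.erase i)) : ℕ) : ℤ) ≤ ((4 * #y : ℕ) : ℤ) := by
        exact_mod_cast hRLy
      rw [hyc] at h'
      simpa using h'
    have hsum : ∑ j ∈ yᶜ, F y (insert j y)
        = ((n : ℤ) - m) * ((m : ℤ) + ((m : ℤ) + 1) * (wt G y : ℤ)) - (((n : ℤ) - m) * (wt G y : ℤ)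
          + ∑ j ∈ yᶜ, ∑ i ∈ y, (wt G (insert j (y.erase i)) : ℤ)) := by
      show ∑ j ∈ yᶜ, ((m : ℤ) + ((m : ℤ) + 1) * (wt G y : ℤ) - T (insert j y)) = _
      rw [sum_sub_distrib, sum_const, sum_congr rfl hT, sum_add_distrib, sum_const]
      simp only [nsmul_eq_mul]
      rw [hcc]
    rw [hsum]
    nlinarith [hR]
  have h4 : ((n : ℤ) - m) * m * (W G S : ℤ) - 4 * m * (#S : ℤ) ≤ (#(up m S) : ℤ) * (((m : ℤ) + 1) * m) := by
    calc ((n : ℤ) - m) * m * (W G S : ℤ) - 4 * m * (#S : ℤ)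
        = ∑ y ∈ S, (((n : ℤ) - m) * m * (1 + (wt G y : ℤ)) - 4 * m) := by
          rw [sum_sub_distrib, ← mul_sum, sum_const]
          simp only [W, nsmul_eq_mul]
          push_cast
          ring
      _ ≤ ∑ y ∈ S, ∑ j ∈ yᶜ, F y (insert j y) := sum_le_sum h3
      _ = _ := h2.symm
      _ ≤ _ := h1
  have hSW : (#S : ℤ) ≤ (W G S : ℤ) := by
    have : #S ≤ W G S := by
      unfold W
      calc #S = ∑ _A ∈ S, 1 := by simp
        _ ≤ _ := sum_le_sum fun A _ => Nat.le_add_right _ _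
    exact_mod_cast this
  have hmpos : (0 : ℤ) < m := by exact_mod_cast (by omega : 0 < m)
  have h5 : ((n : ℤ) - m) * (W G S : ℤ) - 4 * (#S : ℤ) ≤ (#(up m S) : ℤ) * ((m : ℤ) + 1) := by
    have : (m : ℤ) * (((n : ℤ) - m) * (W G S : ℤ) - 4 * (#S : ℤ)) ≤ (m : ℤ) * ((#(up m S) : ℤ) * ((m : ℤ) + 1)) := by
      nlinarith [h4]
    exact le_of_mul_le_mul_left this hmpos
  have h6 : (n : ℤ) * (W G S : ℤ) ≤ ((m : ℤ) + 1) * (#(up m S) : ℤ) + ((m : ℤ) + 4) * (W G S : ℤ) := by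
    nlinarith [h5, hSW]
  exact_mod_cast h6

end Pool.Agent.Helper47.SR
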